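import Pool.Agent.Helper12K9.HC.Final

/-!
Every finite hypercellular graph is isomorphic to a convex subgraph of the tope graph of a
central hyperplane arrangement, that is, of a realizable oriented matroid.
-/

namespace Pool.Agent.Results.MP_25e9c6_co.HypercellularRealizable

open Pool.Agent.Helper12K9.HC

universe u

/-- For every finite hypercellular graph `G` there is a finite arrangement `A` of linear
hyperplanes in some `ℝ^d` such that `G` is isomorphic to a convex subgraph of the tope graph
of `A`. -/
theorem result (V : Type u) [Finite V] (G : SimpleGraph V) (hG : IsHypercellular G) :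
    ∃ (d : ℕ) (A : Finset (Submodule ℝ (EuclideanSpace ℝ (Fin d)))),
      (∀ H ∈ A, Module.finrank ℝ H + 1 = d) ∧
      ∃ s : Set (Region A), IsConvexSet (topeGraph A) s ∧
        Nonempty (G ≃g (topeGraph A).induce s) :=
  main V G hG

end Pool.Agent.Results.MP_25e9c6_co.HypercellularRealizable
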